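import Mathlib
import Pool.Agent.H7.ChromH2

set_option autoImplicit false

namespace Pool.Agent.Results.MP_f4be1e_co.PartialSums
open PowerSeries Finset

/-- `χ_G(n)`: the number of proper colourings of `G` with `n` colours. -/
noncomputable def chi {V : Type} (G : SimpleGraph V) (n : ℕ) : ℕ := Nat.card (G.Coloring (Fin n))

/-- `h_j`: the coefficient of `z^j` in `h_G(z) = (1 - z)^(d+1) ∑ χ_G(n) z^n`, `d = |V|`. -/
noncomputable def h {V : Type} [Fintype V] (G : SimpleGraph V) (j : ℕ) : ℤ :=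
  coeff j ((1 - X : PowerSeries ℤ) ^ (Fintype.card V + 1) * PowerSeries.mk fun n => (chi G n : ℤ))

/-- `h_d + ⋯ + h_{d-i+1} - (h_0 + ⋯ + h_i) ≥ 0` for every graph on `d` vertices and every
`1 ≤ i ≤ d` (in particular for `1 ≤ i ≤ ⌊d/2⌋`). -/
theorem result (V : Type) [Fintype V] (G : SimpleGraph V) (i : ℕ) (h1 : 1 ≤ i)
    (hi : i ≤ Fintype.card V) :
    0 ≤ ∑ j ∈ range i, h G (Fintype.card V - j) - ∑ j ∈ range (i + 1), h G j := by
  classical
  have hm := Pool.Agent.H7.ChromH.main i h1 hi (univ.filter fun p : V × V => G.Adj p.1 p.2)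
  have hc : (Pool.Agent.H7.ChromH.cnt fun a b =>
      (a, b) ∈ (univ.filter fun p : V × V => G.Adj p.1 p.2)) = chi G := by
    funext n
    unfold Pool.Agent.H7.ChromH.cnt chi
    rw [← Fintype.card_subtype, ← Nat.card_eq_fintype_card]
    refine Nat.card_congr ⟨fun φ => SimpleGraph.Coloring.mk φ.1 fun {a b} hab =>
      φ.2 a b (by simpa using hab), fun c => ⟨c, fun a b hab => c.valid (by simpa using hab)⟩,
      fun _ => rfl, fun _ => rfl⟩
  rw [hc] at hm
  exact hm

end Pool.Agent.Results.MP_f4be1e_co.PartialSums
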